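import Pool.Agent.Q54.EM.StmD

/-!
# Project EM: jobs TIL, DRV, TLT, TLI, TLQ
-/

set_option autoImplicit false

namespace Pool.Agent.Q210.EM

open Finset Filter Topology Pool.Agent.Q54.EM

theorem ee_smul {ι : Type} [Fintype ι] (p x : ι → ℝ) (n : ℕ) (c : ℝ) : ∀ f : ℝ → ℝ,
    EE p x n (fun s => c * f s) = c * EE p x n f := by
  induction n with
  | zero => intro f; rfl
  | succ n ih =>
    intro f
    simp only [EE]
    rw [Finset.mul_sum]
    refine Finset.sum_congr rfl fun i _ => ?_
    rw [ih (fun s => f (s + x i))]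
    ring

theorem Zpos {ι : Type} [Fintype ι] (p x : ι → ℝ) (h : Law p x) (t : ℝ) :
    0 < ∑ j, p j * Real.exp (-t * x j) := by
  have hne : (Finset.univ : Finset ι).Nonempty := by
    by_contra hcon
    rw [Finset.not_nonempty_iff_eq_empty] at hcon
    have := h.sum
    rw [hcon] at this
    simp at this
  exact Finset.sum_pos (fun j _ => mul_pos (h.pos j) (Real.exp_pos _)) hne

theorem til : S_TIL := by
  intro ι _ p x n f t h
  have hZ := Zpos p x h t
  set Z := ∑ j, p j * Real.exp (-t * x j) with hZdef
  revert f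
  induction n with
  | zero => intro f; simp [EE]
  | succ n ih =>
    intro f
    simp only [EE]
    rw [Finset.sum_div]
    refine Finset.sum_congr rfl fun i _ => ?_
    rw [ih (fun s => f (s + x i))]
    have h1 : EE p x n (fun s => f (s + x i) * Real.exp (-t * (s + x i))) =
        Real.exp (-t * x i) * EE p x n (fun s => f (s + x i) * Real.exp (-t * s)) := by
      rw [← ee_smul]
      congr 1
      funext s
      rw [mul_add, Real.exp_add]
      ring
    rw [h1, pow_succ]
    field_simp

theorem drv : S_DRV := by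
  intro ι _ p x n
  induction n with
  | zero =>
    intro f y t
    simp only [EE]
    have h1 : HasDerivAt (fun u : ℝ => u * (y - 0)) (1 * (y - 0)) t :=
      (hasDerivAt_id t).mul_const (y - 0)
    have h2 := (h1.exp).const_mul (f 0)
    have e : (y - 0) * f 0 * Real.exp (t * (y - 0)) = f 0 * (Real.exp (t * (y - 0)) * (1 * (y - 0))) := by
      ring
    rw [e]
    exact h2
  | succ n ih =>
    intro f y t
    simp only [EE]
    have h1 : ∀ i ∈ (Finset.univ : Finset ι), HasDerivAt
        (fun u : ℝ => p i * EE p x n (fun s => f (s + x i) * Real.exp (u * (y - (s + x i)))))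
        (p i * EE p x n (fun s => (y - (s + x i)) * f (s + x i) * Real.exp (t * (y - (s + x i))))) t := by
      intro i _
      have h2 := (ih (fun s => f (s + x i)) (y - x i) t).const_mul (p i)
      have e : ∀ s : ℝ, y - x i - s = y - (s + x i) := fun s => by ring
      simpa only [e] using h2
    have h3 := HasDerivAt.fun_sum h1
    exact h3

theorem tlt : S_TIL → S_DRV → S_POS → S_EEL → S_TLT := by
  intro hT hD hP hE ι _ p x k hk h hmu t
  have hZ := Zpos p x h t
  have hexp : ∀ s : ℝ, Real.exp (-t * s) = Real.exp (-t * k) * Real.exp (t * (k - s)) := by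
    intro s
    rw [← Real.exp_add]
    congr 1
    ring
  have key : ∀ (n : ℕ) (f : ℝ → ℝ), EE (pt p x t) x n f =
      Real.exp (-t * k) * EE p x n (fun s => f s * Real.exp (t * (k - s))) /
        (∑ j, p j * Real.exp (-t * x j)) ^ n := by
    intro n f
    have h1 := hT ι p x n f t h
    have h2 : EE p x n (fun s => f s * Real.exp (-t * s)) =
        Real.exp (-t * k) * EE p x n (fun s => f s * Real.exp (t * (k - s))) := by
      rw [← ee_smul]
      congr 1
      funext s
      rw [hexp s]
      ring
    rw [h2] at h1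
    exact h1
  refine ⟨⟨?_, ?_, h.nn⟩, ?_, ?_, ?_, ?_, ?_⟩
  · intro i
    exact div_pos (mul_pos (h.pos i) (Real.exp_pos _)) hZ
  · have : ∑ i, pt p x t i = (∑ i, p i * Real.exp (-t * x i)) / ∑ j, p j * Real.exp (-t * x j) := by
      rw [Finset.sum_div]
      rfl
    rw [this]
    exact div_self hZ.ne'
  · intro n
    rw [PR, key, UU]
    congr 3
    funext s
    ring
  · intro n
    rw [GP, key, UU]
    congr 3
    funext s
    by_cases hs : s < k
    · rw [max_eq_left (by linarith), if_pos hs]; ring
    · rw [max_eq_right (by linarith), if_neg hs]; ring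
  · intro n
    rw [G2, key, UU]
    congr 3
    funext s
    by_cases hs : s < k
    · rw [max_eq_left (by linarith), if_pos hs]; ring
    · rw [max_eq_right (by linarith), if_neg hs]; ring
  · intro n hn
    have h1 := (hP ι p x h).1 n k hn hk hmu
    have h2 := (hE ι p x n).2.2.2.1 (fun i => (h.pos i).le) h.nn
      (fun s => Real.exp (-(|t| * k)) * (if s < k then 1 else 0))
      (fun s => (k - s) ^ 0 * (if s < k then 1 else 0) * Real.exp (t * (k - s))) (by
        intro s hs
        by_cases hsk : s < k
        · simp only [hsk, if_true, pow_zero, one_mul, mul_one]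
          rw [Real.exp_le_exp]
          have h3 : -(t * (k - s)) ≤ |t| * (k - s) := by
            have h4 : -t ≤ |t| := neg_le_abs t
            have h5 : 0 ≤ (k : ℝ) - s := by linarith
            nlinarith
          have h6 : |t| * (k - s) ≤ |t| * k := by
            have := abs_nonneg t
            nlinarith
          linarith
        · simp [hsk])
    rw [ee_smul] at h2
    have h3 : 0 < Real.exp (-(|t| * k)) * EE p x n (fun s => if s < (k : ℝ) then (1 : ℝ) else 0) :=
      mul_pos (Real.exp_pos _) h1
    exact lt_of_lt_of_le h3 h2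
  · intro n j
    have h1 := hD ι p x n (fun s => (k - s) ^ j * (if s < k then 1 else 0)) k t
    have h2 : UU k p x n (j + 1) t = EE p x n (fun s => ((k : ℝ) - s) *
        ((k - s) ^ j * (if s < k then 1 else 0)) * Real.exp (t * (k - s))) := by
      rw [UU]
      congr 1
      funext s
      rw [pow_succ]
      ring
    rw [h2]
    exact h1

theorem law_pt {ι : Type} [Fintype ι] (p x : ι → ℝ) (h : Law p x) (t : ℝ) :
    Law (pt p x t) x := by
  have hZ := Zpos p x h t
  refine ⟨?_, ?_, h.nn⟩
  · intro i
    exact div_pos (mul_pos (h.pos i) (Real.exp_pos _)) hZ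
  · have : ∑ i, pt p x t i = (∑ i, p i * Real.exp (-t * x i)) / ∑ j, p j * Real.exp (-t * x j) := by
      rw [Finset.sum_div]
      rfl
    rw [this]
    exact div_self hZ.ne'

theorem tli : S_TIL → S_POS → S_EEL → S_TLI := by
  intro hT hP hE ι _ p x k hk h hmu
  obtain ⟨a, ha⟩ : ∃ a, x a < 1 := by
    by_contra hcon
    have hcon2 : ∀ i, 1 ≤ x i := fun i => by
      by_contra h2
      exact hcon ⟨i, lt_of_not_ge h2⟩
    have : 1 ≤ mu p x := by
      calc (1 : ℝ) = ∑ i, p i := h.sum.symm
        _ ≤ ∑ i, p i * x i := Finset.sum_le_sum fun i _ => by nlinarith [h.pos i, hcon2 i]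
    linarith
  have hk0 : (0 : ℝ) < k := by exact_mod_cast hk
  have hpa := h.pos a
  have hlow : ∀ t, 0 ≤ t →
      1 - (1 / (p a) ^ k) * Real.exp (-(k * (1 - x a)) * t) ≤ PR (pt p x t) x k k := by
    intro t ht
    have hZ := Zpos p x h t
    set Z := ∑ j, p j * Real.exp (-t * x j) with hZdef
    have hL := law_pt p x h t
    have h1 : EE (pt p x t) x k (fun s => 1 - (if s < (k : ℝ) then (1 : ℝ) else 0)) =
        1 - PR (pt p x t) x k k := by
      rw [(hE ι (pt p x t) x k).2.1 (fun _ => 1) (fun s => if s < (k : ℝ) then (1 : ℝ) else 0),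
        (hE ι (pt p x t) x k).2.2.2.2.1 hL.sum 1]
      rfl
    have h2 : EE (pt p x t) x k (fun s => 1 - (if s < (k : ℝ) then (1 : ℝ) else 0)) =
        EE p x k (fun s => (1 - (if s < (k : ℝ) then (1 : ℝ) else 0)) * Real.exp (-t * s)) / Z ^ k :=
      hT ι p x k _ t h
    have h3 : EE p x k (fun s => (1 - (if s < (k : ℝ) then (1 : ℝ) else 0)) * Real.exp (-t * s)) ≤
        EE p x k (fun _ => Real.exp (-t * k)) := by
      refine (hE ι p x k).2.2.2.1 (fun i => (h.pos i).le) h.nn _ _ ?_
      intro s hs
      by_cases hsk : s < k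
      · simp only [hsk, if_true, sub_self, zero_mul]
        exact (Real.exp_pos _).le
      · simp only [hsk, if_false, sub_zero, one_mul]
        rw [Real.exp_le_exp]
        have : (k : ℝ) ≤ s := le_of_not_gt hsk
        nlinarith
    rw [(hE ι p x k).2.2.2.2.1 h.sum] at h3
    have h4 : p a * Real.exp (-t * x a) ≤ Z :=
      Finset.single_le_sum (f := fun j => p j * Real.exp (-t * x j))
        (fun j _ => (mul_pos (h.pos j) (Real.exp_pos _)).le) (Finset.mem_univ a)
    have h5 : (p a * Real.exp (-t * x a)) ^ k ≤ Z ^ k :=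
      pow_le_pow_left₀ (mul_pos hpa (Real.exp_pos _)).le h4 k
    have h6 : Real.exp (-t * k) / Z ^ k ≤ Real.exp (-t * k) / (p a * Real.exp (-t * x a)) ^ k :=
      div_le_div_of_nonneg_left (Real.exp_pos _).le
        (pow_pos (mul_pos hpa (Real.exp_pos _)) k) h5
    have h7 : Real.exp (-t * k) / (p a * Real.exp (-t * x a)) ^ k =
        (1 / (p a) ^ k) * Real.exp (-(k * (1 - x a)) * t) := by
      rw [mul_pow, ← Real.exp_nat_mul, one_div, div_eq_mul_inv, mul_inv, ← Real.exp_neg]
      have : Real.exp (-(k * (1 - x a)) * t) =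
          Real.exp (-t * k) * Real.exp (-(k * (-t * x a))) := by
        rw [← Real.exp_add]
        congr 1
        ring
      rw [this]
      ring
    have h8 : EE p x k (fun s => (1 - (if s < (k : ℝ) then (1 : ℝ) else 0)) * Real.exp (-t * s)) / Z ^ k
        ≤ Real.exp (-t * k) / Z ^ k := div_le_div_of_nonneg_right h3 (pow_pos hZ k).le
    linarith
  have hlim : Tendsto (fun t : ℝ => 1 - (1 / (p a) ^ k) * Real.exp (-(k * (1 - x a)) * t)) atTop
      (𝓝 1) := by
    have hc : 0 < k * (1 - x a) := mul_pos hk0 (by linarith)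
    have h1 : Tendsto (fun t : ℝ => -(k * (1 - x a)) * t) atTop atBot := by
      have := Filter.Tendsto.const_mul_atTop hc (tendsto_id (α := ℝ) (x := atTop))
      have h2 := tendsto_neg_atTop_atBot.comp this
      refine h2.congr fun t => ?_
      simp only [Function.comp, id]
      ring
    have h2 := Real.tendsto_exp_atBot.comp h1
    have h3 := (h2.const_mul (1 / (p a) ^ k)).const_sub 1
    simpa using h3
  refine tendsto_of_tendsto_of_tendsto_of_le_of_le' hlim tendsto_const_nhds ?_ ?_
  · filter_upwards [eventually_ge_atTop (0 : ℝ)] with t ht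
    exact hlow t ht
  · filter_upwards with t
    exact ((hP ι (pt p x t) x (law_pt p x h t)).2.1 k k).2

theorem tlq : S_TIL → S_POS → S_EEL → S_TLQ := by
  intro hT hP hE ι _ p x k hk h hlt t
  obtain ⟨n, rfl⟩ : ∃ n, k = n + 1 := ⟨k - 1, by omega⟩
  simp only [Nat.add_sub_cancel] at hlt ⊢
  set K : ℝ := ((n + 1 : ℕ) : ℝ) with hK
  have hK0 : 0 ≤ K := by positivity
  have hdiff : ∀ w : ι → ℝ, ∑ i, w i = 1 → PR w x n K - PR w x (n + 1) K =
      ∑ i, w i * EE w x n (fun s => (if s < K then (1 : ℝ) else 0) - (if s + x i < K then 1 else 0)) := by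
    intro w hw
    have h1 : PR w x n K = ∑ i, w i * EE w x n (fun s => if s < K then (1 : ℝ) else 0) := by
      rw [← Finset.sum_mul, hw, one_mul]
      rfl
    have h2 : PR w x (n + 1) K = ∑ i, w i * EE w x n (fun s => if s + x i < K then (1 : ℝ) else 0) :=
      rfl
    rw [h1, h2, ← Finset.sum_sub_distrib]
    refine Finset.sum_congr rfl fun i _ => ?_
    rw [(hE ι w x n).2.1 (fun s => if s < K then (1 : ℝ) else 0)
      (fun s => if s + x i < K then (1 : ℝ) else 0)]
    ring
  have hg0 : ∀ (i : ι) (s : ℝ), 0 ≤ (if s < K then (1 : ℝ) else 0) - (if s + x i < K then 1 else 0) := by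
    intro i s
    have := h.nn i
    by_cases h1 : s < K
    · by_cases h2 : s + x i < K <;> simp [h1, h2]
    · have h2 : ¬ s + x i < K := by linarith [le_of_not_gt h1]
      simp [h1, h2]
  have hL := law_pt p x h t
  have hZ := Zpos p x h t
  have hE0 : ∀ (i : ι), 0 ≤ EE p x n
      (fun s => (if s < K then (1 : ℝ) else 0) - (if s + x i < K then 1 else 0)) := by
    intro i
    have h1 := (hE ι p x n).2.2.2.1 (fun i => (h.pos i).le) h.nn (fun _ => 0)
      (fun s => (if s < K then (1 : ℝ) else 0) - (if s + x i < K then 1 else 0))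
      (fun s _ => hg0 i s)
    rw [(hE ι p x n).2.2.2.2.1 h.sum 0] at h1
    exact h1
  have hcmp : ∀ i : ι, Real.exp (-(|t| * K)) * EE p x n
      (fun s => (if s < K then (1 : ℝ) else 0) - (if s + x i < K then 1 else 0)) /
        (∑ j, p j * Real.exp (-t * x j)) ^ n ≤ EE (pt p x t) x n
      (fun s => (if s < K then (1 : ℝ) else 0) - (if s + x i < K then 1 else 0)) := by
    intro i
    have h1 := hT ι p x n
      (fun s => (if s < K then (1 : ℝ) else 0) - (if s + x i < K then 1 else 0)) t h
    have h2 : Real.exp (-(|t| * K)) * EE p x n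
        (fun s => (if s < K then (1 : ℝ) else 0) - (if s + x i < K then 1 else 0)) ≤
        EE p x n (fun s => ((if s < K then (1 : ℝ) else 0) - (if s + x i < K then 1 else 0)) *
          Real.exp (-t * s)) := by
      rw [← ee_smul]
      refine (hE ι p x n).2.2.2.1 (fun i => (h.pos i).le) h.nn _ _ ?_
      intro s hs
      by_cases hsk : s < K
      · have h3 : Real.exp (-(|t| * K)) ≤ Real.exp (-t * s) := by
          rw [Real.exp_le_exp]
          have h4 : t ≤ |t| := le_abs_self t
          have h5 := abs_nonneg t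
          nlinarith
        have h6 := hg0 i s
        nlinarith
      · have h2 : ¬ s + x i < K := by linarith [le_of_not_gt hsk, h.nn i]
        simp [hsk, h2]
    have h3 : EE (pt p x t) x n
        (fun s => (if s < K then (1 : ℝ) else 0) - (if s + x i < K then 1 else 0)) =
        EE p x n (fun s => ((if s < K then (1 : ℝ) else 0) - (if s + x i < K then 1 else 0)) *
          Real.exp (-t * s)) / (∑ j, p j * Real.exp (-t * x j)) ^ n := h1
    rw [h3]
    exact div_le_div_of_nonneg_right h2 (pow_pos hZ n).le
  have hpos : 0 < ∑ i, p i * EE p x n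
      (fun s => (if s < K then (1 : ℝ) else 0) - (if s + x i < K then 1 else 0)) := by
    rw [← hdiff p h.sum]
    linarith
  obtain ⟨i0, -, hi0⟩ := Finset.exists_lt_of_sum_lt (s := (Finset.univ : Finset ι))
    (f := fun _ => (0 : ℝ)) (g := fun i => p i * EE p x n
      (fun s => (if s < K then (1 : ℝ) else 0) - (if s + x i < K then 1 else 0)))
    (by simpa using hpos)
  have hi1 : 0 < EE p x n
      (fun s => (if s < K then (1 : ℝ) else 0) - (if s + x i0 < K then 1 else 0)) := by
    exact (mul_pos_iff_of_pos_left (h.pos i0)).1 hi0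
  have hfin : 0 < ∑ i, pt p x t i * EE (pt p x t) x n
      (fun s => (if s < K then (1 : ℝ) else 0) - (if s + x i < K then 1 else 0)) := by
    refine Finset.sum_pos' ?_ ⟨i0, Finset.mem_univ _, ?_⟩
    · intro i _
      refine mul_nonneg (hL.pos i).le (le_trans ?_ (hcmp i))
      exact div_nonneg (mul_nonneg (Real.exp_pos _).le (hE0 i)) (pow_pos hZ n).le
    · refine mul_pos (hL.pos i0) (lt_of_lt_of_le ?_ (hcmp i0))
      exact div_pos (mul_pos (Real.exp_pos _) hi1) (pow_pos hZ n)
  rw [← hdiff (pt p x t) hL.sum] at hfin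
  linarith

end Pool.Agent.Q210.EM
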